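import Mathlib

set_option autoImplicit false
set_option linter.unusedSectionVars false

namespace Pool.Agent.Results.MP_36fbc5_co.NonclassicalNetsH24

open Module

/-- `𝓑` is the set of blocks of an `(s, r, μ)`-net on the point set `V`: there are `s ^ 2 * μ`
points, the blocks have `s * μ` points, and `𝓑` is divided into `r` pairwise disjoint parallel
classes, each of which is a partition of `V`, such that blocks of different classes meet in exactly
`μ` points. -/
def IsNet {V : Type*} (s r μ : ℕ) (𝓑 : Set (Set V)) : Prop :=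
  Nat.card V = s ^ 2 * μ ∧ (∀ B ∈ 𝓑, B.ncard = s * μ) ∧
  ∃ 𝓟 : Set (Set (Set V)), 𝓟.ncard = r ∧ ⋃₀ 𝓟 = 𝓑 ∧ (∀ C ∈ 𝓟, Setoid.IsPartition C) ∧
    ∀ C ∈ 𝓟, ∀ C' ∈ 𝓟, C ≠ C' → Disjoint C C' ∧ ∀ B ∈ C, ∀ B' ∈ C', (B ∩ B').ncard = μ

/-- The dual structure: its points are the blocks of `𝓑`, its blocks are the sets of all blocks of
`𝓑` through a point. -/
def dual {V : Type*} (𝓑 : Set (Set V)) : Set (Set 𝓑) :=
  Set.range fun p : V => {B : 𝓑 | p ∈ (B : Set V)}

/-- A symmetric `(s, μ)`-net: an `(s, s μ, μ)`-net whose dual is an `(s, s μ, μ)`-net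
(`s ≥ 2`, `μ ≥ 1`, `s μ ≥ 3`). -/
def IsSymmetricNet {V : Type*} (s μ : ℕ) (𝓑 : Set (Set V)) : Prop :=
  2 ≤ s ∧ 1 ≤ μ ∧ 3 ≤ s * μ ∧ IsNet s (s * μ) μ 𝓑 ∧ IsNet s (s * μ) μ (dual 𝓑)

/-- A permutation of the points which maps blocks to blocks (and non-blocks to non-blocks). -/
def IsAutomorphism {V : Type*} (𝓑 : Set (Set V)) (g : Equiv.Perm V) : Prop :=
  ∀ B : Set V, g '' B ∈ 𝓑 ↔ B ∈ 𝓑

/-- Distinct points which lie in a common block. -/
def Joined {V : Type*} (𝓑 : Set (Set V)) (p q : V) : Prop :=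
  p ≠ q ∧ ∃ B ∈ 𝓑, p ∈ B ∧ q ∈ B

/-- Distinct points which lie in no common block. -/
def NonJoined {V : Type*} (𝓑 : Set (Set V)) (p q : V) : Prop :=
  p ≠ q ∧ ¬ ∃ B ∈ 𝓑, p ∈ B ∧ q ∈ B

/-- The blocks of the classical net: the hyperplanes of the affine space `K ^ d` that are not
parallel to a line of direction `L`. -/
def classicalBlocks (K : Type*) [Field K] (d : ℕ) (L : Submodule K (Fin d → K)) :
    Set (Set (Fin d → K)) :=
  {B | ∃ H : AffineSubspace K (Fin d → K), (H : Set (Fin d → K)).Nonempty ∧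
    finrank K H.direction + 1 = d ∧ ¬ L ≤ H.direction ∧ B = (H : Set (Fin d → K))}

/-- `𝓑` is isomorphic to a classical net, for a finite field `K`, a dimension `d ≥ 2` and a line of
`K ^ d` with (one-dimensional) direction `L`. -/
def IsClassical {V : Type*} (𝓑 : Set (Set V)) : Prop :=
  ∃ (K : Type) (_ : Field K) (_ : Finite K) (d : ℕ) (L : Submodule K (Fin d → K)),
    2 ≤ d ∧ finrank K L = 1 ∧
      ∃ e : V ≃ (Fin d → K), ∀ B : Set V, B ∈ 𝓑 ↔ e '' B ∈ classicalBlocks K d L

/-! ### Nets from families of blocks -/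

theorem isNet_of_family {V L E : Type*} [Finite V] [Finite L] {s μ : ℕ} (hs : 2 ≤ s)
    (hμ : 1 ≤ μ)
    (hV : Nat.card V = s ^ 2 * μ) (hL : Nat.card L = s * μ) (blk : L → E → Set V)
    (h1 : ∀ m c, (blk m c).ncard = s * μ) (h2 : ∀ m v, ∃! c, v ∈ blk m c)
    (h4 : ∀ m m', m ≠ m' → ∀ c c', (blk m c ∩ blk m' c').ncard = μ) [Nonempty E]
    {𝓑 : Set (Set V)} (h𝓑 : ∀ B, B ∈ 𝓑 ↔ ∃ m c, blk m c = B) :
    IsNet s (s * μ) μ 𝓑 := by
  have hsμ : μ < s * μ := by nlinarith
  have hne : ∀ m c, (blk m c).Nonempty := by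
    intro m c
    apply Set.nonempty_of_ncard_ne_zero
    rw [h1]; positivity
  let cls : L → Set (Set V) := fun m => Set.range (blk m)
  have hdis : ∀ m m', m ≠ m' → Disjoint (cls m) (cls m') := by
    intro m m' hm
    rw [Set.disjoint_left]
    rintro B ⟨c, hc⟩ ⟨c', hc'⟩
    have := h4 m m' hm c c'
    rw [hc, hc', Set.inter_self, ← hc, h1] at this
    omega
  have hinj : Function.Injective cls := by
    intro m m' h
    by_contra hm
    have := hdis m m' hm
    rw [h] at this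
    obtain ⟨c⟩ := ‹Nonempty E›
    exact Set.disjoint_left.1 this ⟨c, rfl⟩ ⟨c, rfl⟩
  refine ⟨hV, ?_, Set.range cls, ?_, ?_, ?_, ?_⟩
  · intro B hB
    obtain ⟨m, c, rfl⟩ := (h𝓑 B).1 hB
    exact h1 m c
  · rw [← hL, ← Set.image_univ, Set.ncard_image_of_injective _ hinj, Set.ncard_univ]
  · ext B
    rw [h𝓑]
    constructor
    · rintro ⟨C, ⟨m, rfl⟩, ⟨c, hc⟩⟩
      exact ⟨m, c, hc⟩
    · rintro ⟨m, c, hc⟩
      exact ⟨cls m, ⟨m, rfl⟩, ⟨c, hc⟩⟩
  · rintro C ⟨m, rfl⟩
    constructor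
    · rintro ⟨c, hc⟩
      have := hne m c
      rw [hc] at this
      exact Set.not_nonempty_empty this
    · intro v
      obtain ⟨c, hc, hu⟩ := h2 m v
      refine ⟨blk m c, ⟨⟨c, rfl⟩, hc⟩, ?_⟩
      rintro B ⟨⟨c', rfl⟩, hv⟩
      rw [hu c' hv]
  · rintro C ⟨m, rfl⟩ C' ⟨m', rfl⟩ hCC
    have hm : m ≠ m' := fun h => hCC (by rw [h])
    refine ⟨hdis m m' hm, ?_⟩
    rintro B ⟨c, rfl⟩ B' ⟨c', rfl⟩
    exact h4 m m' hm c c'

/-! ### The nets `y = T (x m) + c` -/

section nets

variable {L E : Type} [Field L] [Finite L] [AddCommGroup E] [Finite E]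

/-- the block with the equation `y = T (x m) + c` -/
def blk (T : L →+ E) (m : L) (c : E) : Set (L × E) := {P | P.2 = T (P.1 * m) + c}

/-- all these blocks -/
def net (T : L →+ E) : Set (Set (L × E)) := {B | ∃ m c, blk T m c = B}

theorem card_fiber (T : L →+ E) (hT : Function.Surjective T) (d : E) :
    {x : L | T x = d}.ncard * Nat.card E = Nat.card L := by
  obtain ⟨x0, hx0⟩ := hT d
  have h1 : {x : L | T x = d} = (fun x => x + x0) '' (T.ker : Set L) := by
    ext x
    simp only [Set.mem_ofPred_eq, Set.mem_image, SetLike.mem_coe, AddMonoidHom.mem_ker]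
    constructor
    · intro h
      exact ⟨x - x0, by rw [map_sub, h, hx0, sub_self], by simp⟩
    · rintro ⟨y, hy, rfl⟩
      rw [map_add, hy, hx0, zero_add]
  rw [h1, Set.ncard_image_of_injective _ (add_left_injective x0)]
  have h2 := T.ker.card_eq_card_quotient_mul_card_addSubgroup
  have h3 : Nat.card (L ⧸ T.ker) = Nat.card E :=
    Nat.card_congr (QuotientAddGroup.quotientKerEquivOfSurjective T hT).toEquiv
  rw [h2, h3, mul_comm]
  rfl

theorem card_fiber_mul {T : L →+ E} (hT : Function.Surjective T) {μ : ℕ}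
    (hL : Nat.card L = Nat.card E * μ) {n : L} (hn : n ≠ 0) (d : E) :
    {x : L | T (x * n) = d}.ncard = μ := by
  have h1 : {x : L | T x = d} = (fun x => x * n) '' {x : L | T (x * n) = d} := by
    ext x
    simp only [Set.mem_ofPred_eq, Set.mem_image]
    constructor
    · intro h
      exact ⟨x * n⁻¹, by rw [mul_assoc, inv_mul_cancel₀ hn, mul_one, h],
        by rw [mul_assoc, inv_mul_cancel₀ hn, mul_one]⟩
    · rintro ⟨y, hy, rfl⟩
      exact hy
  have h2 := card_fiber T hT d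
  rw [h1, Set.ncard_image_of_injective _ (mul_left_injective₀ hn), hL] at h2
  have h3 : 0 < Nat.card E := Nat.card_pos
  have h4 : Nat.card E * {x : L | T (x * n) = d}.ncard = Nat.card E * μ := by
    rw [mul_comm, h2]
  exact Nat.eq_of_mul_eq_mul_left h3 h4

theorem isNet_net {T : L →+ E} (hT : Function.Surjective T) {s μ : ℕ} (hs : 2 ≤ s) (hμ : 1 ≤ μ)
    (hE : Nat.card E = s) (hL : Nat.card L = s * μ) : IsNet s (s * μ) μ (net T) := by
  refine isNet_of_family hs hμ ?_ hL (blk T) ?_ ?_ ?_ fun B => Iff.rfl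
  · rw [Nat.card_prod, hL, hE]; ring
  · intro m c
    have h : blk T m c = Set.range (fun x : L => ((x, T (x * m) + c) : L × E)) := by
      ext ⟨x, y⟩
      simp only [blk, Set.mem_ofPred_eq, Set.mem_range, Prod.mk.injEq]
      constructor
      · intro h; exact ⟨x, rfl, h.symm⟩
      · rintro ⟨z, rfl, h⟩; exact h.symm
    rw [h, ← Set.image_univ, Set.ncard_image_of_injective, Set.ncard_univ, hL]
    intro x y h
    exact (Prod.mk.inj h).1
  · rintro m ⟨x, y⟩
    refine ⟨y - T (x * m), ?_, ?_⟩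
    · simp [blk]
    · intro c hc
      simp only [blk, Set.mem_ofPred_eq] at hc
      rw [hc]; abel
  · intro m m' hm c c'
    refine Eq.trans ?_ (card_fiber_mul (μ := μ) hT (by rw [hL, hE]) (sub_ne_zero.2 hm) (c' - c))
    have h : blk T m c ∩ blk T m' c' = (fun x : L => ((x, T (x * m) + c) : L × E)) ''
        {x : L | T (x * (m - m')) = c' - c} := by
      ext ⟨x, y⟩
      simp only [blk, Set.mem_inter_iff, Set.mem_ofPred_eq, Set.mem_image, Prod.mk.injEq]
      constructor
      · rintro ⟨h1, h2⟩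
        refine ⟨x, ?_, rfl, h1.symm⟩
        rw [mul_sub, map_sub, sub_eq_sub_iff_add_eq_add]
        rw [h1] at h2
        rw [h2]; abel
      · rintro ⟨z, h1, rfl, h2⟩
        refine ⟨h2.symm, ?_⟩
        rw [mul_sub, map_sub, sub_eq_sub_iff_add_eq_add] at h1
        rw [← h2, h1]; abel
    rw [h, Set.ncard_image_of_injective]
    intro x y h
    exact (Prod.mk.inj h).1

theorem blk_injective {T : L →+ E} (hT : Function.Surjective T) [Nontrivial E] :
    Function.Injective (fun P : L × E => blk T P.1 P.2) := by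
  rintro ⟨m, c⟩ ⟨m', c'⟩ h
  have h0 : c = c' := by
    have : ((0, c) : L × E) ∈ blk T m c := by simp [blk]
    have h1 : ((0, c) : L × E) ∈ blk T m' c' := by
      have h2 : blk T m c = blk T m' c' := h
      rw [← h2]; exact this
    simpa [blk] using h1
  subst h0
  have hm : m = m' := by
    by_contra hm
    obtain ⟨z, hz⟩ := exists_ne (0 : E)
    obtain ⟨w, hw⟩ := hT z
    have hmm : m - m' ≠ 0 := sub_ne_zero.2 hm
    let x := w * (m - m')⁻¹
    have h1 : ((x, T (x * m) + c) : L × E) ∈ blk T m c := by simp [blk]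
    have h2 : ((x, T (x * m) + c) : L × E) ∈ blk T m' c := by
      have h2 : blk T m c = blk T m' c := h
      rw [← h2]; exact h1
    simp only [blk, Set.mem_ofPred_eq, add_left_inj] at h2
    have h3 : T (x * (m - m')) = 0 := by rw [mul_sub, map_sub, h2, sub_self]
    have h4 : x * (m - m') = w := by
      simp only [x]; rw [mul_assoc, inv_mul_cancel₀ hmm, mul_one]
    rw [h4, hw] at h3
    exact hz h3
  rw [hm]

theorem isNet_dual {T : L →+ E} (hT : Function.Surjective T) {s μ : ℕ} (hs : 2 ≤ s) (hμ : 1 ≤ μ)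
    (hE : Nat.card E = s) (hL : Nat.card L = s * μ) : IsNet s (s * μ) μ (dual (net T)) := by
  have hnt : Nontrivial E := by
    rw [← Finite.one_lt_card_iff_nontrivial, hE]; omega
  let φ : L × E → net T := fun P => ⟨blk T P.1 P.2, P.1, P.2, rfl⟩
  have hφ : Function.Injective φ := by
    intro P Q h
    exact blk_injective hT (Subtype.ext_iff.1 h)
  have hφs : Function.Surjective φ := by
    rintro ⟨B, m, c, rfl⟩
    exact ⟨(m, c), rfl⟩
  have hdb : ∀ x y, {B : net T | (x, y) ∈ (B : Set (L × E))} =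
      φ '' {Q : L × E | y = T (x * Q.1) + Q.2} := by
    intro x y
    ext ⟨B, m, c, rfl⟩
    constructor
    · intro h
      exact ⟨(m, c), h, rfl⟩
    · rintro ⟨Q, hQ, h⟩
      have h1 : blk T Q.1 Q.2 = blk T m c := Subtype.ext_iff.1 h
      change (x, y) ∈ blk T m c
      rw [← h1]
      exact hQ
  refine isNet_of_family hs hμ ?_ hL (fun x y => {B : net T | (x, y) ∈ (B : Set (L × E))})
    ?_ ?_ ?_ ?_
  · rw [← Nat.card_congr (Equiv.ofBijective φ ⟨hφ, hφs⟩), Nat.card_prod, hL, hE]; ring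
  · intro x y
    have h : {Q : L × E | y = T (x * Q.1) + Q.2} =
        Set.range (fun m : L => ((m, y - T (x * m)) : L × E)) := by
      ext ⟨m, c⟩
      simp only [Set.mem_ofPred_eq, Set.mem_range, Prod.mk.injEq]
      constructor
      · intro h; exact ⟨m, rfl, by rw [h]; abel⟩
      · rintro ⟨z, rfl, h⟩; rw [← h]; abel
    simp only [hdb]
    rw [Set.ncard_image_of_injective _ hφ, h, ← Set.image_univ, Set.ncard_image_of_injective,
      Set.ncard_univ, hL]
    intro x y h
    exact (Prod.mk.inj h).1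
  · rintro x ⟨B, m, c, rfl⟩
    refine ⟨T (x * m) + c, ?_, ?_⟩
    · simp [blk]
    · intro y hy
      exact hy
  · intro x x' hx y y'
    simp only [hdb]
    rw [← Set.image_inter hφ, Set.ncard_image_of_injective _ hφ]
    refine Eq.trans ?_ (card_fiber_mul (μ := μ) hT (by rw [hL, hE]) (sub_ne_zero.2 hx) (y - y'))
    have h : {Q : L × E | y = T (x * Q.1) + Q.2} ∩ {Q : L × E | y' = T (x' * Q.1) + Q.2} =
        (fun m : L => ((m, y - T (x * m)) : L × E)) '' {m : L | T (m * (x - x')) = y - y'} := by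
      ext ⟨m, c⟩
      simp only [Set.mem_inter_iff, Set.mem_ofPred_eq, Set.mem_image, Prod.mk.injEq]
      constructor
      · rintro ⟨h1, h2⟩
        refine ⟨m, ?_, rfl, by rw [h1]; abel⟩
        rw [mul_sub, map_sub, mul_comm m x, mul_comm m x', h1, h2]; abel
      · rintro ⟨z, h1, rfl, h2⟩
        rw [mul_sub, map_sub, mul_comm z x, mul_comm z x'] at h1
        refine ⟨by rw [← h2]; abel, ?_⟩
        rw [← h2, add_sub, ← sub_eq_iff_eq_add.2 (show y = y' + (T (x * z) - T (x' * z)) by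
          rw [h1]; abel)]
        abel
    rw [h, Set.ncard_image_of_injective]
    intro x y h
    exact (Prod.mk.inj h).1
  · intro B
    constructor
    · rintro ⟨⟨x, y⟩, h⟩
      exact ⟨x, y, h⟩
    · rintro ⟨x, y, h⟩
      exact ⟨(x, y), h⟩

end nets

/-! ### The automorphism group -/

/-- the full automorphism group -/
def autGroup {V : Type*} (𝓑 : Set (Set V)) : Subgroup (Equiv.Perm V) where
  carrier := {g | IsAutomorphism 𝓑 g}
  mul_mem' := by
    intro g h hg hh B
    have : (g * h : Equiv.Perm V) '' B = g '' (h '' B) := by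
      rw [Set.image_image]; rfl
    rw [this, hg, hh]
  one_mem' := by
    intro B
    have : (1 : Equiv.Perm V) '' B = B := by simp
    rw [this]
  inv_mem' := by
    intro g hg B
    rw [← hg]
    have : g '' ((g⁻¹ : Equiv.Perm V) '' B) = B := by
      rw [Set.image_image]
      simp
    rw [this]

theorem mem_autGroup {V : Type*} [Finite V] {𝓑 : Set (Set V)} {g : Equiv.Perm V}
    (h : ∀ B ∈ 𝓑, g '' B ∈ 𝓑) : g ∈ autGroup 𝓑 := by
  intro B
  refine ⟨fun hB => ?_, h B⟩
  let f : 𝓑 → 𝓑 := fun B => ⟨g '' B, h B B.2⟩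
  have hf : Function.Injective f := by
    intro A A' hA
    apply Subtype.ext
    exact g.injective.image_injective (Subtype.ext_iff.1 hA)
  obtain ⟨A, hA⟩ := (Finite.injective_iff_surjective.1 hf) ⟨g '' B, hB⟩
  have h1 : (A : Set V) = B := g.injective.image_injective (Subtype.ext_iff.1 hA)
  rw [← h1]; exact A.2

section group

variable {L E : Type} [Field L] [Finite L] [Field E] [Finite E]

theorem mem_aut {T : L →+ E} {g : Equiv.Perm (L × E)}
    (h : ∀ m c, ∃ m' c', ∀ P, P ∈ blk T m c ↔ g P ∈ blk T m' c') : g ∈ autGroup (net T) := by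
  apply mem_autGroup
  rintro B ⟨m, c, rfl⟩
  obtain ⟨m', c', h⟩ := h m c
  refine ⟨m', c', ?_⟩
  ext Q
  constructor
  · intro hQ
    exact ⟨g.symm Q, (h _).2 (by simpa using hQ), by simp⟩
  · rintro ⟨P, hP, rfl⟩
    exact (h P).1 hP

/-- translations -/
def transl (a : L) (b : E) : Equiv.Perm (L × E) :=
  (Equiv.addRight ((a, b) : L × E))

theorem transl_mem (T : L →+ E) (a : L) (b : E) : transl a b ∈ autGroup (net T) := by
  apply mem_aut
  intro m c
  refine ⟨m, c + b - T (a * m), fun P => ?_⟩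
  simp only [blk, Set.mem_ofPred_eq, transl, Equiv.coe_addRight, Prod.snd_add, Prod.fst_add]
  rw [add_mul, map_add]
  constructor
  · intro h; rw [h]; abel
  · intro h
    have h2 : P.2 + b = (T (P.1 * m) + c) + b := by rw [h]; abel
    exact add_right_cancel h2

/-- shears -/
def shear (T : L →+ E) (n : L) : Equiv.Perm (L × E) where
  toFun P := (P.1, P.2 + T (P.1 * n))
  invFun P := (P.1, P.2 - T (P.1 * n))
  left_inv P := by simp
  right_inv P := by simp

theorem shear_mem (T : L →+ E) (n : L) : shear T n ∈ autGroup (net T) := by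
  apply mem_aut
  intro m c
  refine ⟨m + n, c, fun P => ?_⟩
  simp only [blk, Set.mem_ofPred_eq, shear, Equiv.coe_fn_mk]
  rw [mul_add, map_add]
  constructor
  · intro h; rw [h]; abel
  · intro h
    have h2 : P.2 + T (P.1 * n) = (T (P.1 * m) + c) + T (P.1 * n) := by rw [h]; abel
    exact add_right_cancel h2

/-- multiplications -/
def scale (u : Lˣ) : Equiv.Perm (L × E) where
  toFun P := (P.1 * u, P.2)
  invFun P := (P.1 * (u⁻¹ : Lˣ), P.2)
  left_inv P := by simp
  right_inv P := by simp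

theorem scale_mem (T : L →+ E) (u : Lˣ) : (scale u : Equiv.Perm (L × E)) ∈ autGroup (net T) := by
  apply mem_aut
  intro m c
  refine ⟨(u⁻¹ : Lˣ) * m, c, fun P => ?_⟩
  simp only [blk, Set.mem_ofPred_eq, scale, Equiv.coe_fn_mk]
  have : P.1 * ↑u * (↑u⁻¹ * m) = P.1 * m := by
    rw [mul_assoc, ← mul_assoc (u : L), Units.mul_inv, one_mul]
  rw [this]

theorem pow_bij (p : ℕ) [Fact p.Prime] [CharP L p] : Function.Bijective (fun x : L => x ^ p) := by
  have h : Function.Injective (frobenius L p) := frobenius_inj L p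
  exact Finite.injective_iff_bijective.1 h

/-- Frobenius -/
noncomputable def frob (p : ℕ) [Fact p.Prime] [CharP L p] (γ : E) (hγ : γ ≠ 0) :
    Equiv.Perm (L × E) :=
  Equiv.prodCongr (Equiv.ofBijective _ (pow_bij (L := L) p)) (Equiv.mulLeft₀ γ hγ)

theorem frob_mem (T : L →+ E) (p : ℕ) [Fact p.Prime] [CharP L p] (γ : E) (hγ : γ ≠ 0)
    (hT : ∀ z, T (z ^ p) = γ * T z) : frob p γ hγ ∈ autGroup (net T) := by
  apply mem_aut
  intro m c
  refine ⟨m ^ p, γ * c, fun P => ?_⟩
  have h1 : frob p γ hγ P = (P.1 ^ p, γ * P.2) := rfl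
  rw [h1]
  simp only [blk, Set.mem_ofPred_eq]
  rw [← mul_pow, hT, ← mul_add]
  exact (mul_right_inj' hγ).symm

theorem joined_fst {T : L →+ E} {P Q : L × E} (h : Joined (net T) P Q) : P.1 ≠ Q.1 := by
  obtain ⟨hne, B, ⟨m, c, rfl⟩, hP, hQ⟩ := h
  intro h
  apply hne
  simp only [blk, Set.mem_ofPred_eq] at hP hQ
  exact Prod.ext h (by rw [hP, hQ, h])

theorem nonJoined_fst {T : L →+ E} (hT : Function.Surjective T) {P Q : L × E}
    (h : NonJoined (net T) P Q) : P.1 = Q.1 := by
  by_contra hne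
  apply h.2
  obtain ⟨w, hw⟩ := hT (P.2 - Q.2)
  have hs : P.1 - Q.1 ≠ 0 := sub_ne_zero.2 hne
  have h1 : T ((P.1 - Q.1) * ((P.1 - Q.1)⁻¹ * w)) = P.2 - Q.2 := by
    rw [← mul_assoc, mul_inv_cancel₀ hs, one_mul, hw]
  rw [sub_mul, map_sub] at h1
  refine ⟨_, ⟨(P.1 - Q.1)⁻¹ * w, P.2 - T (P.1 * ((P.1 - Q.1)⁻¹ * w)), rfl⟩, ?_, ?_⟩
  · simp only [blk, Set.mem_ofPred_eq]; abel
  · simp only [blk, Set.mem_ofPred_eq]
    rw [add_sub, eq_sub_iff_add_eq]
    rw [sub_eq_sub_iff_add_eq_add] at h1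
    rw [add_comm (T _) P.2, ← h1, add_comm]

theorem joined_std {T : L →+ E} (hT : Function.Surjective T) {P Q : L × E} (h : P.1 ≠ Q.1) :
    ∃ g ∈ autGroup (net T), g P = (0, 0) ∧ g Q = (1, 0) := by
  have hs : Q.1 - P.1 ≠ 0 := sub_ne_zero.2 h.symm
  obtain ⟨w, hw⟩ := hT (-(Q.2 - P.2))
  let u : Lˣ := Units.mk0 (Q.1 - P.1)⁻¹ (inv_ne_zero hs)
  refine ⟨shear T w * (scale u * transl (-P.1) (-P.2)),
    mul_mem (shear_mem T w) (mul_mem (scale_mem T u) (transl_mem T _ _)), ?_, ?_⟩
  · simp [shear, scale, transl]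
  · simp only [Equiv.Perm.mul_apply, transl, Equiv.coe_addRight, scale, Equiv.coe_fn_mk, shear,
      Prod.fst_add, Prod.snd_add, u, Units.val_mk0]
    have h1 : (Q.1 + -P.1) * (Q.1 - P.1)⁻¹ = 1 := by
      rw [← sub_eq_add_neg]; exact mul_inv_cancel₀ hs
    rw [h1, one_mul, hw]
    congr 1
    abel

theorem nonJoined_std {T : L →+ E} (p : ℕ) [Fact p.Prime] [CharP L p] (γ : E)
    (hγ : ∀ y : E, y ≠ 0 → ∃ k : ℕ, γ ^ k * y = 1) (hγ0 : γ ≠ 0)
    (hT : ∀ z, T (z ^ p) = γ * T z) {P Q : L × E} (hne : P ≠ Q) (h : P.1 = Q.1) :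
    ∃ g ∈ autGroup (net T), g P = (0, 0) ∧ g Q = (0, 1) := by
  have hy : Q.2 - P.2 ≠ 0 := by
    intro h0
    apply hne
    exact Prod.ext h (sub_eq_zero.1 h0).symm
  obtain ⟨k, hk⟩ := hγ _ hy
  have hp : p ≠ 0 := (Fact.out : p.Prime).ne_zero
  have hpow : ∀ (j : ℕ) (y : E), ((frob p γ hγ0 : Equiv.Perm (L × E)) ^ j) (0, y) = (0, γ ^ j * y) := by
    intro j
    induction j with
    | zero => intro y; simp
    | succ j ih =>
      intro y
      rw [pow_succ, Equiv.Perm.mul_apply]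
      have h1 : (frob p γ hγ0 : Equiv.Perm (L × E)) (0, y) = (0, γ * y) := by
        show ((0 : L) ^ p, γ * y) = (0, γ * y)
        rw [zero_pow hp]
      rw [h1, ih, pow_succ]
      congr 1
      ring
  refine ⟨(frob p γ hγ0) ^ k * transl (-P.1) (-P.2),
    mul_mem (pow_mem (frob_mem T p γ hγ0 hT) k) (transl_mem T _ _), ?_, ?_⟩
  · rw [Equiv.Perm.mul_apply]
    have h1 : transl (-P.1) (-P.2) P = ((0, 0) : L × E) :=
      Prod.ext (by simp [transl]) (by simp [transl])
    rw [h1, hpow]; simp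
  · rw [Equiv.Perm.mul_apply]
    have h1 : transl (-P.1) (-P.2) Q = ((0, Q.2 - P.2) : L × E) := by
      simp only [transl, Equiv.coe_addRight]
      refine Prod.ext ?_ ?_
      · simp [h]
      · simp [sub_eq_add_neg]
    rw [h1, hpow, hk]

end group

/-! ### The lines of the nets -/

theorem bern {p e : ℕ} (hp : 2 ≤ p) (he : 2 ≤ e) : e * (p - 1) + 1 < p ^ e := by
  induction e, he using Nat.le_induction with
  | base =>
    obtain ⟨k, rfl⟩ : ∃ k, p = k + 2 := ⟨p - 2, by omega⟩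
    have : k + 2 - 1 = k + 1 := by omega
    rw [this]; nlinarith
  | succ e he ih =>
    obtain ⟨k, rfl⟩ : ∃ k, p = k + 2 := ⟨p - 2, by omega⟩
    have h1 : k + 2 - 1 = k + 1 := by omega
    rw [h1] at ih ⊢
    rw [pow_succ]
    have h2 : (e * (k + 1) + 1) * (k + 2) < (k + 2) ^ e * (k + 2) :=
      Nat.mul_lt_mul_of_pos_right ih (by omega)
    have h3 : (e + 1) * (k + 1) + 1 ≤ (e * (k + 1) + 1) * (k + 2) := by nlinarith [Nat.zero_le (e * (k + 1) * (k + 1))]
    omega

section lines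

variable {L E : Type} [Field L] [Finite L] [Field E] [Finite E]

/-- the multipliers of the kernel of `T` -/
def mult (T : L →+ E) : Subfield L where
  carrier := {x | ∀ z, T z = 0 → T (x * z) = 0}
  mul_mem' := by
    intro x y hx hy z hz
    rw [mul_assoc]
    exact hx _ (hy z hz)
  one_mem' := by
    intro z hz
    rwa [one_mul]
  add_mem' := by
    intro x y hx hy z hz
    rw [add_mul, map_add, hx z hz, hy z hz, add_zero]
  zero_mem' := by
    intro z _
    rw [zero_mul, map_zero]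
  neg_mem' := by
    intro x hx z hz
    rw [neg_mul, map_neg, hx z hz, neg_zero]
  inv_mem' := by
    intro x hx z hz
    have hpow : ∀ n : ℕ, T (x ^ n * z) = 0 := by
      intro n
      induction n with
      | zero => simpa using hz
      | succ n ih => rw [pow_succ', mul_assoc]; exact hx _ ih
    by_cases h0 : x = 0
    · rw [h0, inv_zero, zero_mul, map_zero]
    · cases nonempty_fintype L
      have h1 : x ^ (Fintype.card L - 2) = x⁻¹ := by
        have h2 := FiniteField.pow_card_sub_one_eq_one x h0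
        have h3 : 1 < Fintype.card L := Fintype.one_lt_card
        have h4 : Fintype.card L - 1 = (Fintype.card L - 2) + 1 := by omega
        rw [h4, pow_succ] at h2
        exact eq_inv_of_mul_eq_one_left h2
      rw [← h1]
      exact hpow _

theorem mult_small {T : L →+ E} (hT : Function.Surjective T) {p : ℕ} [Fact p.Prime] [CharP L p]
    {γ : Eˣ} (hγ : ∀ x, x ∈ Subgroup.zpowers γ) (hF : ∀ z, T (z ^ p) = γ * T z) {e : ℕ}
    (he : 2 ≤ e) (hE : Nat.card E = p ^ e) : Nat.card (mult T) < p ^ e := by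
  by_contra hcon
  rw [not_lt] at hcon
  have hmem : ∀ x, x ∈ mult T ↔ ∀ z, T z = 0 → T (x * z) = 0 := fun x => Iff.rfl
  obtain ⟨v, hv⟩ := hT 1
  -- the map `x ↦ T (x v)` is injective on the multipliers
  have hinj0 : ∀ x ∈ mult T, T (x * v) = 0 → x = 0 := by
    intro x hx h
    by_contra h0
    have h1 := (hmem _).1 (inv_mem hx) _ h
    rw [← mul_assoc, inv_mul_cancel₀ h0, one_mul, hv] at h1
    exact one_ne_zero h1
  let f : mult T → E := fun x => T (x * v)
  have hf : Function.Injective f := by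
    intro x y h
    have h1 : T (((x : L) - y) * v) = 0 := by
      rw [sub_mul, map_sub]; exact sub_eq_zero.2 h
    exact Subtype.ext (sub_eq_zero.1 (hinj0 _ (sub_mem x.2 y.2) h1))
  have hcard : Nat.card (mult T) = p ^ e :=
    le_antisymm (by rw [← hE]; exact Nat.card_le_card_of_injective f hf) hcon
  have hfs : Function.Surjective f := by
    have := (Nat.bijective_iff_injective_and_card f).2 ⟨hf, by rw [hcard, hE]⟩
    exact this.2
  have hpow : ∀ x ∈ mult T, x ^ p ^ e = x := by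
    intro x hx
    have : Fintype (mult T) := Fintype.ofFinite _
    have h1 := FiniteField.pow_card (⟨x, hx⟩ : mult T)
    rw [← Nat.card_eq_fintype_card, hcard] at h1
    exact Subtype.ext_iff.1 h1
  have hFj : ∀ (j : ℕ) (z : L), T (z ^ p ^ j) = (γ : E) ^ j * T z := by
    intro j
    induction j with
    | zero => intro z; simp
    | succ j ih =>
      intro z
      rw [pow_succ, pow_mul, hF, ih, pow_succ]
      ring
  have hsub : ∀ a b : L, (a - b) ^ p = a ^ p - b ^ p := fun a b => sub_pow_char a b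
  have hsubj : ∀ a b : L, (a - b) ^ p ^ e = a ^ p ^ e - b ^ p ^ e :=
    fun a b => sub_pow_char_pow a b e
  have hpm : ∀ x ∈ mult T, x ^ p ∈ mult T := fun x hx => pow_mem hx p
  obtain ⟨⟨x, hx⟩, hxv⟩ := hfs (T (v ^ p ^ e))
  obtain ⟨⟨y, hy⟩, hyv⟩ := hfs (T (v ^ p))
  change T (x * v) = T (v ^ p ^ e) at hxv
  change T (y * v) = T (v ^ p) at hyv
  have hA : T (v ^ p ^ e - x * v) = 0 := by rw [map_sub, hxv, sub_self]
  have hB : T (v ^ p - y * v) = 0 := by rw [map_sub, hyv, sub_self]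
  have hAp : T (v ^ p ^ (e + 1) - x ^ p * v ^ p) = 0 := by
    have h1 := hF (v ^ p ^ e - x * v)
    rw [hA, mul_zero, hsub, mul_pow, ← pow_mul, ← pow_succ] at h1
    exact h1
  have hBp : T (v ^ p ^ (e + 1) - y * v ^ p ^ e) = 0 := by
    have h1 := hFj e (v ^ p - y * v)
    rw [hB, mul_zero, hsubj, mul_pow, hpow y hy, ← pow_mul, ← pow_succ'] at h1
    exact h1
  have h1 : T (x ^ p * v ^ p) = T (y * v ^ p ^ e) := by
    rw [map_sub, sub_eq_zero] at hAp hBp
    rw [← hAp, ← hBp]
  have h2 : T (x ^ p * v ^ p) = T (x ^ p * y * v) := by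
    have h3 := (hmem _).1 (hpm x hx) _ hB
    rw [mul_sub, map_sub, sub_eq_zero] at h3
    rw [h3, mul_assoc]
  have h3 : T (y * v ^ p ^ e) = T (y * x * v) := by
    have h4 := (hmem _).1 hy _ hA
    rw [mul_sub, map_sub, sub_eq_zero] at h4
    rw [h4, mul_assoc]
  have hy0 : y ≠ 0 := by
    rintro rfl
    rw [zero_mul, map_zero, hF, hv, mul_one] at hyv
    exact γ.ne_zero hyv.symm
  have hx0 : x ≠ 0 := by
    rintro rfl
    rw [zero_mul, map_zero, hFj, hv, mul_one] at hxv
    exact pow_ne_zero _ γ.ne_zero hxv.symm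
  have h4 : x ^ p * y - y * x = 0 := by
    apply hinj0 _ (sub_mem (mul_mem (hpm x hx) hy) (mul_mem hy hx))
    rw [sub_mul, map_sub, ← h2, h1, h3, sub_self]
  have h5 : x ^ (p - 1) = 1 := by
    have hp : p = (p - 1) + 1 := by
      have := (Fact.out : p.Prime).pos
      omega
    have h6 : x ^ p * y = x * y := by
      rw [sub_eq_zero] at h4
      rw [h4, mul_comm]
    have h7 : x ^ p = x := mul_right_cancel₀ hy0 h6
    rw [hp, pow_succ] at h7
    exact mul_right_cancel₀ hx0 (by rw [h7, one_mul])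
  have h6 : ∀ j : ℕ, T (x ^ j * v) = (γ : E) ^ (e * j) := by
    intro j
    induction j with
    | zero => simp [hv]
    | succ j ih =>
      have h7 : T (x ^ j * v ^ p ^ e) = T (x ^ (j + 1) * v) := by
        have h8 := (hmem _).1 (pow_mem hx j) _ hA
        rw [mul_sub, map_sub, sub_eq_zero] at h8
        rw [h8, pow_succ, mul_assoc]
      have h8 := hFj e (x ^ j * v)
      rw [mul_pow, hpow _ (pow_mem hx j), h7, ih] at h8
      rw [h8, ← pow_add]
      congr 1
      ring
  have h7 : γ ^ (e * (p - 1)) = 1 := by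
    apply Units.ext
    have h8 := h6 (p - 1)
    rw [h5, one_mul, hv] at h8
    rw [Units.val_pow_eq_pow_val, Units.val_one, ← h8]
  have h8 : orderOf γ = Nat.card Eˣ := orderOf_eq_card_of_forall_mem_zpowers hγ
  have h9 : Nat.card Eˣ = p ^ e - 1 := by rw [Nat.card_units, hE]
  have hp2 := (Fact.out : p.Prime).two_le
  have h10 : p ^ e - 1 ≤ e * (p - 1) := by
    rw [← h9, ← h8]
    apply Nat.le_of_dvd
    · apply Nat.mul_pos <;> omega
    · exact orderOf_dvd_of_pow_eq_one h7
  have := bern hp2 he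
  omega

end lines

/-- In a net isomorphic to a classical one the lines have at least `s` points. -/
theorem classical_line {V : Type} [Finite V] {𝓑 : Set (Set V)} (h : IsClassical 𝓑) {s k : ℕ}
    (hk : 0 < k) (hV : Nat.card V = s * k) (hB : ∀ B ∈ 𝓑, B.ncard = k) {P Q : V}
    (hPQ : Joined 𝓑 P Q) : s ≤ {R : V | ∀ B ∈ 𝓑, P ∈ B → Q ∈ B → R ∈ B}.ncard := by
  obtain ⟨K, _, _, d, D, hd, hD, e, he⟩ := h
  obtain ⟨hne, B, hBB, hP, hQ⟩ := hPQ
  have hcV : Nat.card V = Nat.card K ^ d := by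
    rw [Nat.card_congr e, Module.natCard_eq_pow_finrank (K := K), finrank_fin_fun]
  have hcB : k = Nat.card K ^ (d - 1) := by
    obtain ⟨H, ⟨q, hq⟩, hfr, -, hH⟩ := (he B).1 hBB
    have h1 : (H : Set (Fin d → K)) = (fun v => v + q) '' (H.direction : Set (Fin d → K)) := by
      ext x
      constructor
      · intro hx
        exact ⟨x - q, AffineSubspace.vsub_mem_direction hx hq, by simp⟩
      · rintro ⟨v, hv, rfl⟩
        exact AffineSubspace.vadd_mem_of_mem_direction hv hq
    have h2 : (e '' B).ncard = k := by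
      rw [Set.ncard_image_of_injective _ e.injective, hB B hBB]
    rw [hH, h1, Set.ncard_image_of_injective _ (add_left_injective q)] at h2
    rw [← h2]
    have h3 : (H.direction : Set (Fin d → K)).ncard = Nat.card H.direction := rfl
    rw [h3, Module.natCard_eq_pow_finrank (K := K)]
    congr 1
    omega
  have hs : Nat.card K = s := by
    have hd1 : d = (d - 1) + 1 := by omega
    rw [hd1, pow_succ, ← hcB, hV, mul_comm] at hcV
    exact (Nat.eq_of_mul_eq_mul_left hk hcV).symm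
  rw [← hs]
  let f : K → V := fun t => e.symm (AffineMap.lineMap (e P) (e Q) t)
  have hf : Function.Injective f :=
    e.symm.injective.comp (AffineMap.lineMap_injective K (fun h => hne (e.injective h)))
  have hsub : Set.range f ⊆ {R : V | ∀ B ∈ 𝓑, P ∈ B → Q ∈ B → R ∈ B} := by
    rintro _ ⟨t, rfl⟩ C hC hPC hQC
    obtain ⟨H, -, -, -, hH⟩ := (he C).1 hC
    have h1 : ∀ R, R ∈ C ↔ e R ∈ H := by
      intro R
      rw [← SetLike.mem_coe, ← hH]
      simp
    rw [h1]
    simp only [f, Equiv.apply_symm_apply]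
    exact AffineMap.lineMap_mem _ ((h1 P).1 hPC) ((h1 Q).1 hQC)
  calc Nat.card K = (Set.range f).ncard := by
        rw [← Set.image_univ, Set.ncard_image_of_injective _ hf, Set.ncard_univ]
    _ ≤ _ := Set.ncard_le_ncard hsub

section main

variable {L E : Type} [Field L] [Finite L] [Field E] [Finite E]

theorem not_classical {T : L →+ E} (hT : Function.Surjective T) {p : ℕ} [Fact p.Prime]
    [CharP L p] {γ : Eˣ} (hγ : ∀ x, x ∈ Subgroup.zpowers γ) (hF : ∀ z, T (z ^ p) = γ * T z)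
    {e μ : ℕ} (he : 2 ≤ e) (hμ : 1 ≤ μ) (hE : Nat.card E = p ^ e)
    (hL : Nat.card L = p ^ e * μ) : ¬ IsClassical (net T) := by
  intro hcl
  have hs : 2 ≤ p ^ e := by
    calc 2 ≤ p := (Fact.out : p.Prime).two_le
      _ ≤ p ^ e := Nat.le_self_pow (by omega) p
  have hnet := isNet_net hT hs hμ hE hL
  have hJ : Joined (net T) ((0, 0) : L × E) (1, 0) := by
    refine ⟨fun h => zero_ne_one (Prod.ext_iff.1 h).1, blk T 0 0, ⟨0, 0, rfl⟩, ?_, ?_⟩
    · simp [blk]
    · simp [blk]
  have h1 := classical_line hcl (s := p ^ e) (k := p ^ e * μ) (by positivity)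
    (by rw [hnet.1]; ring) hnet.2.1 hJ
  have h2 : {R : L × E | ∀ B ∈ net T, (0, 0) ∈ B → (1, 0) ∈ B → R ∈ B} ⊆
      (fun x : L => ((x, 0) : L × E)) '' (mult T : Set L) := by
    rintro ⟨x, y⟩ hR
    have hy : y = 0 := by
      have := hR (blk T 0 0) ⟨0, 0, rfl⟩ (by simp [blk]) (by simp [blk])
      simpa [blk] using this
    refine ⟨x, ?_, by rw [hy]⟩
    intro z hz
    have := hR (blk T z 0) ⟨z, 0, rfl⟩ (by simp [blk]) (by simp [blk, hz])
    simp only [blk, Set.mem_ofPred_eq, add_zero] at this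
    rw [← this, hy]
  have h3 : (mult T : Set L).ncard = Nat.card (mult T) := rfl
  have h4 := mult_small hT hγ hF he hE
  have h5 : {R : L × E | ∀ B ∈ net T, (0, 0) ∈ B → (1, 0) ∈ B → R ∈ B}.ncard ≤
      Nat.card (mult T) := by
    refine (Set.ncard_le_ncard h2 (Set.toFinite _)).trans ?_
    refine (Set.ncard_image_le (Set.toFinite _)).trans ?_
    rw [h3]
  omega

end main

/-! ### The map `T` -/

theorem exists_T (p e N : ℕ) [Fact p.Prime] (he : e ≠ 0) (hN : N ≠ 0) (hdiv : p ^ e - 1 ∣ N) :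
    ∃ (T : GaloisField p N →+ GaloisField p e) (γ : (GaloisField p e)ˣ),
      (∀ x, x ∈ Subgroup.zpowers γ) ∧ Function.Surjective T ∧ ∀ z, T (z ^ p) = γ * T z := by
  let K := ZMod p
  let L := GaloisField p N
  let E := GaloisField p e
  let φ : Gal(L/K) := FiniteField.frobeniusAlgEquivOfAlgebraic K L
  have hφ : ∀ z : L, φ z = z ^ p := by
    intro z
    have := congrFun (FiniteField.coe_frobeniusAlgEquivOfAlgebraic K L) z
    rw [this, ZMod.card]
  have hgen : ∀ σ : Gal(L/K), σ ∈ Subgroup.zpowers φ := by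
    intro σ
    obtain ⟨n, hn⟩ := (FiniteField.bijective_frobeniusAlgEquivOfAlgebraic_pow K L).2 σ
    exact ⟨(n : ℕ), by rw [← hn]; simp [φ]⟩
  obtain ⟨γ, hγ⟩ := IsCyclic.exists_generator (α := Eˣ)
  have hγo : orderOf γ = p ^ e - 1 := by
    rw [orderOf_eq_card_of_forall_mem_zpowers hγ, Nat.card_units, GaloisField.card p e he]
  have hdvd : orderOf γ ∣ orderOf φ := by
    rw [hγo, FiniteField.orderOf_frobeniusAlgEquivOfAlgebraic, GaloisField.finrank p hN]
    exact hdiv
  let χ : Gal(L/K) →* Eˣ := monoidHomOfForallMemZpowers hgen hdvd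
  have hχ : χ φ = γ := monoidHomOfForallMemZpowers_apply_gen hgen hdvd
  let b := IsGalois.normalBasis K L
  let T : L →ₗ[K] E := b.constr K (fun σ => ((χ σ : Eˣ) : E))
  have hTb : ∀ σ, T (b σ) = ((χ σ : Eˣ) : E) := fun σ => b.constr_basis K _ σ
  refine ⟨T.toAddMonoidHom, γ, hγ, ?_, ?_⟩
  · intro y
    by_cases hy : y = 0
    · exact ⟨0, by rw [hy]; exact map_zero T⟩
    · obtain ⟨n, hn⟩ := hγ (Units.mk0 y hy)
      refine ⟨b (φ ^ n), ?_⟩
      show T (b (φ ^ n)) = y
      rw [hTb, map_zpow, hχ]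
      have := congrArg Units.val hn
      simpa using this
  · intro z
    show T (z ^ p) = γ * T z
    have h1 : T ∘ₗ φ.toLinearMap = (LinearMap.mulLeft K (γ : E)) ∘ₗ T := by
      apply b.ext
      intro σ
      simp only [LinearMap.comp_apply, LinearMap.mulLeft_apply, AlgEquiv.toLinearMap_apply]
      have h2 : φ (b σ) = b (φ * σ) := by
        have h3 := IsGalois.normalBasis_apply (K := K) (L := L) σ
        have h4 := IsGalois.normalBasis_apply (K := K) (L := L) (φ * σ)
        show φ (IsGalois.normalBasis K L σ) = IsGalois.normalBasis K L (φ * σ)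
        rw [h3, h4]; rfl
      rw [h2, hTb, hTb, map_mul, hχ, Units.val_mul]
    have h2 := LinearMap.congr_fun h1 z
    simp only [LinearMap.comp_apply, LinearMap.mulLeft_apply, AlgEquiv.toLinearMap_apply] at h2
    rw [hφ] at h2
    exact h2

/-- `G` is transitive on the ordered pairs `(p, q)` with the property `R`. -/
def TransitiveOn {V : Type*} (G : Subgroup (Equiv.Perm V)) (R : V → V → Prop) : Prop :=
  ∀ p q p' q', R p q → R p' q' → ∃ g ∈ G, g p = p' ∧ g q = q'

theorem transitive_of_std {V : Type*} {G : Subgroup (Equiv.Perm V)} {R : V → V → Prop} {a b : V}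
    (h : ∀ p q, R p q → ∃ g ∈ G, g p = a ∧ g q = b) : TransitiveOn G R := by
  intro p q p' q' h1 h2
  obtain ⟨g, hg, hp, hq⟩ := h p q h1
  obtain ⟨g', hg', hp', hq'⟩ := h p' q' h2
  refine ⟨g'⁻¹ * g, mul_mem (inv_mem hg') hg, ?_, ?_⟩
  · rw [Equiv.Perm.mul_apply, hp, ← hp']; simp
  · rw [Equiv.Perm.mul_apply, hq, ← hq']; simp

theorem main (p e N : ℕ) (hp : p.Prime) (he : 2 ≤ e) (hN : 0 < N) (hdiv : p ^ e - 1 ∣ N) :
    e < N ∧ ∃ (V : Type) (_ : Finite V) (𝓑 : Set (Set V)) (G : Subgroup (Equiv.Perm V)),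
      IsSymmetricNet (p ^ e) (p ^ (N - e)) 𝓑 ∧ (∀ g ∈ G, IsAutomorphism 𝓑 g) ∧
      TransitiveOn G (Joined 𝓑) ∧ TransitiveOn G (NonJoined 𝓑) ∧ ¬ IsClassical 𝓑 := by
  have : Fact p.Prime := ⟨hp⟩
  have hp2 := hp.two_le
  have hb := bern hp2 he
  have heN : e < N := by
    have h1 : p ^ e - 1 ≤ N := Nat.le_of_dvd hN hdiv
    have h2 : e ≤ e * (p - 1) := Nat.le_mul_of_pos_right e (by omega)
    omega
  refine ⟨heN, ?_⟩
  obtain ⟨T, γ, hγ, hT, hF⟩ := exists_T p e N (by omega) (by omega) hdiv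
  have hE : Nat.card (GaloisField p e) = p ^ e := GaloisField.card p e (by omega)
  have hL : Nat.card (GaloisField p N) = p ^ e * p ^ (N - e) := by
    rw [GaloisField.card p N (by omega), ← pow_add]
    congr 1
    omega
  have hs : 2 ≤ p ^ e := hp2.trans (Nat.le_self_pow (by omega) p)
  have hμ2 : 2 ≤ p ^ (N - e) := hp2.trans (Nat.le_self_pow (by omega) p)
  have hμ : 1 ≤ p ^ (N - e) := by omega
  refine ⟨GaloisField p N × GaloisField p e, inferInstance, net T, autGroup (net T),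
    ⟨hs, hμ, by nlinarith, isNet_net hT hs hμ hE hL, isNet_dual hT hs hμ hE hL⟩,
    fun g hg => hg, ?_, ?_, not_classical hT hγ hF he hμ hE hL⟩
  · exact transitive_of_std fun P Q h => joined_std hT (joined_fst h)
  · refine transitive_of_std fun P Q h => nonJoined_std p (γ : GaloisField p e) ?_ γ.ne_zero hF
      h.1 (nonJoined_fst hT h)
    intro y hy
    have h1 : (Units.mk0 y hy)⁻¹ ∈ Submonoid.powers γ := by
      rw [mem_powers_iff_mem_zpowers]
      exact hγ _
    obtain ⟨k, hk⟩ := h1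
    refine ⟨k, ?_⟩
    have h2 := congrArg Units.val hk
    simp only [Units.val_pow_eq_pow_val, Units.val_inv_eq_inv_val, Units.val_mk0] at h2
    rw [h2, inv_mul_cancel₀ hy]

/-- **Q2 has a negative answer, for every proper power `s` of a prime.**
(1) It is false that every symmetric net with an automorphism group that is transitive on the
unordered pairs of joined points and on the unordered pairs of distinct non-joined points is
classical.
(2) For every prime `p`, every `e ≥ 2` and every positive multiple `N` of `p ^ e - 1` there is such a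
net with `s = p ^ e` and `μ = p ^ (N - e) > 1` that is not classical; its automorphism group is even
transitive on the ordered pairs of joined points and on those of distinct non-joined points. -/
theorem result :
    (¬ ∀ (V : Type) (_ : Finite V) (s μ : ℕ) (𝓑 : Set (Set V)) (G : Subgroup (Equiv.Perm V)),
      IsSymmetricNet s μ 𝓑 → (∀ g ∈ G, IsAutomorphism 𝓑 g) →
      (∀ p q p' q', Joined 𝓑 p q → Joined 𝓑 p' q' →
        ∃ g ∈ G, (g p = p' ∧ g q = q') ∨ (g p = q' ∧ g q = p')) →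
      (∀ p q p' q', NonJoined 𝓑 p q → NonJoined 𝓑 p' q' →
        ∃ g ∈ G, (g p = p' ∧ g q = q') ∨ (g p = q' ∧ g q = p')) →
      IsClassical 𝓑) ∧
    ∀ p e N : ℕ, p.Prime → 2 ≤ e → 0 < N → p ^ e - 1 ∣ N →
      e < N ∧ ∃ (V : Type) (_ : Finite V) (𝓑 : Set (Set V)) (G : Subgroup (Equiv.Perm V)),
        IsSymmetricNet (p ^ e) (p ^ (N - e)) 𝓑 ∧ (∀ g ∈ G, IsAutomorphism 𝓑 g) ∧
        TransitiveOn G (Joined 𝓑) ∧ TransitiveOn G (NonJoined 𝓑) ∧ ¬ IsClassical 𝓑 := by
  refine ⟨fun hall => ?_, main⟩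
  obtain ⟨-, V, hV, 𝓑, G, h1, h2, h3, h4, h5⟩ := main 2 2 3 Nat.prime_two le_rfl (by norm_num)
    (by norm_num)
  refine h5 (hall V hV _ _ 𝓑 G h1 h2 ?_ ?_)
  · intro p q p' q' hp hq
    obtain ⟨g, hg, h⟩ := h3 p q p' q' hp hq
    exact ⟨g, hg, Or.inl h⟩
  · intro p q p' q' hp hq
    obtain ⟨g, hg, h⟩ := h4 p q p' q' hp hq
    exact ⟨g, hg, Or.inl h⟩

end Pool.Agent.Results.MP_36fbc5_co.NonclassicalNetsH24
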